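import Pool.Agent.H.MP_8741c9_al.E
import Pool.Agent.H.MP_8741c9_al.H
import Pool.Agent.H.MP_8741c9_al.J

namespace Pool.Agent.Results.MP_8741c9_al.No

open IsLocalRing RingTheory.Sequence Filter Pool.Agent.H.MP_8741c9_al
open scoped ENNReal

section Defs
variable (R M : Type) [CommRing R] [IsLocalRing R] [AddCommGroup M] [Module R M]

/-- Depth: supremum of the lengths of the `M`-regular sequences in the maximal ideal. -/
noncomputable def depth : ℕ∞ :=
  ⨆ (rs : List R) (_ : (∀ r ∈ rs, r ∈ maximalIdeal R) ∧ IsRegular M rs), (rs.length : ℕ∞)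

/-- Maximal Cohen-Macaulay module: finitely generated with `depth M = dim R`. -/
def IsMCM : Prop := Module.Finite R M ∧ (depth R M : WithBot ℕ∞) = ringKrullDim R

/-- The Krull dimension of `R` as a natural number. -/
noncomputable def dimNat : ℕ := ((ringKrullDim R).unbotD 0).toNat

/-- Multiplicity: `lim d! * length (M / m^j M) / j^d` with `d = dim R`. -/
noncomputable def mult : ℝ≥0∞ :=
  limsup (fun j : ℕ => ((dimNat R).factorial : ℝ≥0∞) *
    (Module.length R (M ⧸ (maximalIdeal R ^ j • ⊤ : Submodule R M)) : ℝ≥0∞) /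
      (j : ℝ≥0∞) ^ dimNat R) atTop

/-- Indecomposable module. -/
def Indec (R M : Type) [CommRing R] [AddCommGroup M] [Module R M] : Prop :=
  Nontrivial M ∧ ∀ N N' : Submodule R M, IsCompl N N' → N = ⊥ ∨ N' = ⊥

/-- Bounded Cohen-Macaulay type. -/
def BoundedCM : Prop :=
  ∃ b : ℕ, ∀ (M : Type) [AddCommGroup M] [Module R M], IsMCM R M → Indec R M → mult R M ≤ b

end Defs

section
variable {R M : Type} [CommRing R] [IsLocalRing R] [IsNoetherianRing R] [AddCommGroup M]
  [Module R M]

lemma depth_le [Module.Finite R M] {n : ℕ} (hd : ringKrullDim R = n) : depth R M ≤ n :=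
  iSup₂_le fun rs h => by
    have := (length_le_dim h.2).trans hd.le
    exact_mod_cast this

lemma mcm_of [Module.Finite R M] (hd : ringKrullDim R = 2) {a b : R} (ha : a ∈ maximalIdeal R)
    (hb : b ∈ maximalIdeal R) (h : IsRegular M [a, b]) : IsMCM R M := by
  refine ⟨inferInstance, ?_⟩
  have : depth R M = 2 := le_antisymm (depth_le (n := 2) hd)
    (le_iSup₂_of_le [a, b] ⟨by simpa using ⟨ha, hb⟩, h⟩ le_rfl)
  rw [this, hd]
  rfl

lemma reg_of (hd : ringKrullDim R = 2) (h : IsMCM R M) : ∃ a b : R, IsRegular M [a, b] := by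
  have := h.1
  have h2 : depth R M = 2 := WithBot.coe_injective (h.2.trans hd)
  have h1 : 1 < depth R M := by rw [h2]; decide
  obtain ⟨rs, h3⟩ := lt_iSup_iff.mp h1
  obtain ⟨h4, h5⟩ := lt_iSup_iff.mp h3
  have h6 : rs.length ≤ 2 := by
    have := (length_le_dim h4.2).trans hd.le
    exact_mod_cast this
  obtain ⟨a, b, rfl⟩ := List.length_eq_two.mp (le_antisymm h6 (by exact_mod_cast h5))
  exact ⟨a, b, h4.2⟩

omit [IsNoetherianRing R] in
lemma dimNat_two (hd : ringKrullDim R = 2) : dimNat R = 2 := by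
  rw [dimNat, hd]
  rfl

omit [IsNoetherianRing R] in
lemma mult_le (hd : ringKrullDim R = 2) {z u : R} (hz : z ∈ maximalIdeal R)
    (hu : u ∈ maximalIdeal R) {c : ℕ}
    (h : Module.length R (M ⧸ K (K (⊥ : Submodule R M) z) u) ≤ c) :
    mult R M ≤ (2 * c : ℕ) := by
  rw [mult, dimNat_two hd]
  refine limsup_le_of_le (by isBoundedDefault) (Eventually.of_forall fun j => ?_)
  have h1 : Module.length R (M ⧸ (maximalIdeal R ^ j • ⊤ : Submodule R M)) ≤ (j * j * c : ℕ) := by
    refine (len_mono (N := K (K ⊥ (z ^ j)) (u ^ j)) fun m hm => ?_).trans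
      ((len_sq_le z u j).trans ?_)
    · obtain ⟨a, b, rfl⟩ := mem_KK.mp hm
      exact Submodule.add_mem _ (Submodule.smul_mem_smul (Ideal.pow_mem_pow hz j) trivial)
        (Submodule.smul_mem_smul (Ideal.pow_mem_pow hu j) trivial)
    · push_cast
      gcongr
  refine ENNReal.div_le_of_le_mul ?_
  have h2 := ENat.toENNReal_le.mpr h1
  refine (mul_le_mul_right h2 _).trans (le_of_eq ?_)
  simp only [ENat.toENNReal_coe, Nat.factorial_two]
  push_cast
  ring

omit [IsNoetherianRing R] in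
lemma le_mult (hd : ringKrullDim R = 2) {z u : R}
    (hm : ∀ x ∈ maximalIdeal R, ∀ y ∈ maximalIdeal R, ∃ a b, x * y = z * a + u * b)
    (hz : IsSMulRegular M z) (hu : IsSMulRegular M u)
    (hzu : ∀ a b : M, u • a = z • b → ∃ c, a = z • c) {c : ℕ}
    (h : ((8 * c : ℕ) : ℕ∞) ≤ Module.length R (M ⧸ K (K (⊥ : Submodule R M) z) u)) :
    c ≤ mult R M := by
  rw [mult, dimNat_two hd]
  refine le_limsup_of_frequently_le (frequently_atTop.mpr fun n => ⟨4 * (n + 1), by omega, ?_⟩)
  set i := n + 1 with hi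
  have h0 : maximalIdeal R ^ (4 * i) ≤ Ideal.span {z ^ i} ⊔ Ideal.span {u ^ i} := by
    have : maximalIdeal R ^ 2 ≤ Ideal.span {z} ⊔ Ideal.span {u} := by
      rw [pow_two, Ideal.mul_le]
      intro x hx y hy
      obtain ⟨a, b, e⟩ := hm x hx y hy
      rw [e]
      exact Submodule.add_mem_sup (Ideal.mul_mem_right _ _ (Ideal.mem_span_singleton_self _))
        (Ideal.mul_mem_right _ _ (Ideal.mem_span_singleton_self _))
    rw [show 4 * i = 2 * (i + i) by ring, pow_mul, ← Ideal.span_singleton_pow,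
      ← Ideal.span_singleton_pow]
    exact (Ideal.pow_right_mono this _).trans Ideal.sup_pow_add_le_pow_sup_pow
  have h1 : ((i * i * (8 * c) : ℕ) : ℕ∞) ≤
      Module.length R (M ⧸ (maximalIdeal R ^ (4 * i) • ⊤ : Submodule R M)) := by
    refine le_trans ?_ ((len_sq_eq z u hz hu hzu i).ge.trans (len_mono ?_))
    · rw [Nat.cast_mul, Nat.cast_mul]
      gcongr
    · refine Submodule.smul_le.mpr fun x hx m _ => ?_
      obtain ⟨a, ha, b, hb, rfl⟩ := Submodule.mem_sup.mp (h0 hx)
      obtain ⟨a, rfl⟩ := Ideal.mem_span_singleton.mp ha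
      obtain ⟨b, rfl⟩ := Ideal.mem_span_singleton.mp hb
      exact mem_KK.mpr ⟨a • m, b • m, by simp [add_smul, mul_smul]⟩
  rw [ENNReal.le_div_iff_mul_le (.inl (by simp [hi]))
    (.inl (ENNReal.pow_ne_top (ENNReal.natCast_ne_top _)))]
  have h2 := ENat.toENNReal_le.mpr h1
  refine le_trans (le_of_eq ?_) (mul_le_mul_right h2 _)
  simp only [ENat.toENNReal_coe, Nat.factorial_two]
  push_cast
  ring

lemma len_fin {z u : R} (hm : ∀ x ∈ maximalIdeal R, ∃ a b, x * x = z * a + u * b) :
    Module.length R (R ⧸ K (K (⊥ : Submodule R R) z) u) ≠ ⊤ := by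
  let I : Ideal R := K (K (⊥ : Submodule R R) z) u
  have h0 : Ring.KrullDimLE 0 (R ⧸ I) := by
    rw [Ring.krullDimLE_zero_iff]
    intro p hp
    have hp' : (p.comap (Ideal.Quotient.mk _)).IsMaximal := by
      have hle : maximalIdeal R ≤ p.comap (Ideal.Quotient.mk _) := by
        intro x hx
        have : Ideal.Quotient.mk I (x * x) = 0 :=
          Ideal.Quotient.eq_zero_iff_mem.mpr (mem_KK.mpr (hm x hx))
        rw [map_mul] at this
        exact (hp.mem_or_mem (this ▸ p.zero_mem)).elim id id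
      rw [← (maximalIdeal.isMaximal R).eq_of_le (Ideal.IsPrime.ne_top inferInstance) hle]
      infer_instance
    rw [← Ideal.map_comap_of_surjective _ Ideal.Quotient.mk_surjective p]
    exact Ideal.IsMaximal.map_of_surjective_of_ker_le Ideal.Quotient.mk_surjective
      (Ideal.ker_le_comap _)
  have : IsArtinianRing (R ⧸ I) := IsNoetherianRing.isArtinianRing_of_krullDimLE_zero
  have : IsArtinian R (R ⧸ I) := 
    isArtinian_of_surjective_algebraMap (Ideal.Quotient.mk_surjective (I := I))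
  exact Module.length_ne_top (M := R ⧸ I)

end

theorem result : ∃ (R S : Type) (_ : CommRing R) (_ : IsNoetherianRing R) (_ : IsLocalRing R)
    (_ : CommRing S) (_ : IsNoetherianRing S) (_ : IsLocalRing S) (_ : Algebra R S),
    IsLocalHom (algebraMap R S) ∧ Module.Flat R S ∧
    (maximalIdeal R).map (algebraMap R S) = maximalIdeal S ∧
    (∃ _ : IsLocalRing (S ⧸ (maximalIdeal R).map (algebraMap R S)),
      IsMCM (S ⧸ (maximalIdeal R).map (algebraMap R S))
        (S ⧸ (maximalIdeal R).map (algebraMap R S))) ∧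
    IsMCM R R ∧ IsMCM S S ∧ BoundedCM S ∧ ¬ BoundedCM R := by
  obtain ⟨N, hz, ⟨uB, hu⟩, vB, c, hv⟩ := exists_N
  have hzm : N.zB ∈ maximalIdeal N.B := N.mem_m.mpr N.zm
  have hmap : (maximalIdeal N.B).map (algebraMap N.B DD.S) = maximalIdeal DD.S := by
    refine le_antisymm (Ideal.map_le_iff_le_comap.mpr fun b hb => N.mem_m.mp hb) fun x hx => ?_
    obtain ⟨p, q, t, rfl⟩ := DD.m_decomp hx
    have h1 : DD.zS ∈ (maximalIdeal N.B).map (algebraMap N.B DD.S) :=
      hz ▸ Ideal.mem_map_of_mem _ hzm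
    have h2 : DD.uS ∈ (maximalIdeal N.B).map (algebraMap N.B DD.S) :=
      hu ▸ Ideal.mem_map_of_mem _ (DD.uB_m hz hu)
    have h3 : vB ∈ maximalIdeal N.B := by
      rw [N.mem_m, sub_eq_iff_eq_add.mp hv]
      exact Ideal.add_mem _ (Ideal.mul_mem_right _ _ DD.zS_m) DD.vS_m
    have h4 : DD.vS ∈ (maximalIdeal N.B).map (algebraMap N.B DD.S) := by
      rw [show DD.vS = vB - DD.zS * c by rw [← hv]; ring]
      exact Ideal.sub_mem _ (Ideal.mem_map_of_mem _ h3) (Ideal.mul_mem_right _ _ h1)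
    exact Ideal.add_mem _ (Ideal.add_mem _ (Ideal.mul_mem_right _ _ h1)
      (Ideal.mul_mem_right _ _ h2)) (Ideal.mul_mem_right _ _ h4)
  refine ⟨N.B, DD.S, inferInstance, inferInstance, inferInstance, inferInstance, inferInstance,
    inferInstance, inferInstance, ⟨N.unitB⟩, N.flat, hmap, ?_,
    mcm_of (DD.dimB hz hu) hzm (DD.uB_m hz hu) (DD.regB hz hu),
    mcm_of DD.dimS DD.zS_m DD.uS_m DD.regS, ?_, ?_⟩
  · rw [hmap]
    have hf : IsField (DD.S ⧸ maximalIdeal DD.S) :=
      (Ideal.Quotient.maximal_ideal_iff_isField_quotient _).mp inferInstance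
    have : IsLocalRing (DD.S ⧸ maximalIdeal DD.S) :=
      .of_surjective' _ Ideal.Quotient.mk_surjective
    have hd : ringKrullDim (DD.S ⧸ maximalIdeal DD.S) = (0 : ℕ) :=
      ringKrullDim_eq_zero_of_isField hf
    refine ⟨this, inferInstance, ?_⟩
    rw [hd, le_antisymm (depth_le hd) (by simp)]
    rfl
  · obtain ⟨c, hc⟩ := ENat.ne_top_iff_exists.mp (len_fin fun x hx => DD.m_sq hx hx)
    refine ⟨2 * (3 * c), fun M _ _ hM hi => ?_⟩
    have := hM.1
    obtain ⟨a, b, hab⟩ := reg_of DD.dimS hM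
    obtain ⟨x, y, w, h⟩ := DD.three_gen hab fun e he => by
      refine (hi.2 _ _ (LinearMap.IsIdempotentElem.isCompl he)).imp LinearMap.range_eq_bot.mp
        fun h => LinearMap.ext fun m => LinearMap.ker_eq_bot.mp h (LinearMap.congr_fun he m)
    refine mult_le DD.dimS DD.zS_m DD.uS_m ((len_three _ _ h).trans ?_)
    rw [← hc]
    simp
  · rintro ⟨b, hb⟩
    let M := DD.Mr N (8 * (b + 1))
    have hl := DD.Mr_len hz hu (8 * (b + 1))
    have : Nontrivial M := by
      by_contra h
      rw [not_nontrivial_iff_subsingleton] at h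
      simp [Module.length_eq_zero] at hl
    have reg : ∀ x : N.B, x ≠ 0 → IsSMulRegular M x := fun x hx =>
      (IsSMulRegular.of_ne_zero hx).submodule _
    have hu0 : uB ≠ 0 := fun h => DD.zu_B hz hu (h ▸ dvd_zero _)
    have h1 := hb M (mcm_of (DD.dimB hz hu) hzm (DD.uB_m hz hu)
      (reg_pair hzm (DD.uB_m hz hu) (reg _ N.primeB.ne_zero) (DD.Mr_zu hz hu _)))
      ⟨this, fun P P' h => by
        refine (DD.indec hz _ (P.projection P' h) (Submodule.isIdempotentElem_projection h)).imp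
          (fun e => ?_) fun e => ?_
        · rw [← Submodule.range_projection h, e, LinearMap.range_zero]
        · rw [← Submodule.ker_projection h, e, LinearMap.ker_id]⟩
    have h2 := le_mult (DD.dimB hz hu) (fun x hx y hy => DD.mB_sq hz hu hx hy)
      (reg _ N.primeB.ne_zero) (reg _ hu0) (DD.Mr_zu hz hu _) hl
    have h3 : b + 1 ≤ b := by exact_mod_cast h2.trans h1
    omega

end Pool.Agent.Results.MP_8741c9_al.No
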